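import Mathlib
import Pool.Agent.Lib.helper10.VarDefs

namespace Pool.Agent.H.MP_ce47b3_al
open Pool.Agent.Lib.helper10.VarDefs

/-- The multiset of variables occurring in a nonassociative monomial. -/
def leaves : FreeMagma ℕ → Multiset ℕ
  | .of i => {i}
  | .mul a b => leaves a + leaves b

/-- `f` is a linear combination of monomials containing each of `x_0, …, x_{n-1}` exactly once
(and no other variable). -/
def Multilinear {k : Type} [CommRing k] (f : FreeNonUnitalNonAssocAlgebra k ℕ) : Prop :=
  ∃ n : ℕ, f ∈ Submodule.span k {m : FreeNonUnitalNonAssocAlgebra k ℕ |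
    ∃ w : FreeMagma ℕ, leaves w = Multiset.range n ∧ m = MonoidAlgebra.single w 1}

/-- `B` lies in the variety defined by `S` and is a free object of it on some set `Y`. -/
def IsFree {k : Type} [CommRing k] (S : Set (FreeNonUnitalNonAssocAlgebra k ℕ)) (B : Type)
    [NonUnitalNonAssocRing B] [Module k B] [IsScalarTower k B B] [SMulCommClass k B B] : Prop :=
  Sat S B ∧ ∃ (Y : Type) (i : Y → B), ∀ (A : Type) [NonUnitalNonAssocRing A] [Module k A]
    [IsScalarTower k A A] [SMulCommClass k A A], Sat S A →
      ∀ a : Y → A, ∃! φ : B →ₙₐ[k] A, ∀ y, φ (i y) = a y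

end Pool.Agent.H.MP_ce47b3_al
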