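import Mathlib

namespace Pool.Agent.H.MP_ce47b3_al
open Polynomial

abbrev P : Type := ℚ[X][X]

noncomputable def sg : ℚ[X] →+* ℚ[X] := compRingHom (C (-1) * X)
noncomputable def bar : P →+* P := compRingHom (C (-1) * X)
noncomputable def til : P →+* P := mapRingHom sg

theorem bar_coeff (v : P) (n : ℕ) : (bar v).coeff n = v.coeff n * (-1) ^ n :=
  comp_C_mul_X_coeff
theorem sg_coeff (v : ℚ[X]) (n : ℕ) : (sg v).coeff n = v.coeff n * (-1) ^ n :=
  comp_C_mul_X_coeff
theorem til_coeff (v : P) (n : ℕ) : (til v).coeff n = sg (v.coeff n) := coeff_map _ _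

theorem bar_bar (v : P) : bar (bar v) = v := by
  ext1 n
  rw [bar_coeff, bar_coeff, mul_assoc, ← mul_pow]; simp
theorem til_bar (v : P) : til (bar v) = bar (til v) := by
  ext1 n
  rw [bar_coeff, til_coeff, til_coeff, bar_coeff]; simp
@[simp] theorem bar_X : bar X = -X := by simp [bar, neg_one_mul (X : ℚ[X][X])]
@[simp] theorem bar_C (a : ℚ[X]) : bar (C a) = C a := by simp [bar]
@[simp] theorem til_X : til X = X := by simp [til]
@[simp] theorem til_C (a : ℚ[X]) : til (C a) = C (sg a) := by simp [til]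
@[simp] theorem sg_X : sg X = -X := by simp [sg]
@[simp] theorem sg_C (a : ℚ) : sg (C a) = C a := by simp [sg]
theorem sg_ne (a : ℚ[X]) (h : a ≠ 0) : sg a ≠ 0 := by
  intro e
  apply h
  ext n
  have := congrArg (coeff · n) e
  simpa [sg_coeff] using this

theorem smul_eq (c : ℚ) (v : P) : c • v = C (C c) * v := by
  ext1 n; simp [smul_eq_C_mul]

noncomputable def rr : P →ₗ[ℚ] P := LinearMap.mulRight ℚ X
noncomputable def ss : P →ₗ[ℚ] P where
  toFun v := C X * bar v
  map_add' u v := by rw [map_add, mul_add]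
  map_smul' c v := by simp only [smul_eq, map_mul, bar_C, RingHom.id_apply]; ring

theorem rr_apply (v : P) : rr v = v * X := rfl
theorem ss_apply (v : P) : ss v = C X * bar v := rfl

theorem anti (v : P) : rr (ss v) + ss (rr v) = 0 := by
  simp only [rr_apply, ss_apply, map_mul, bar_X]; ring

noncomputable def W (m : P) : Submodule ℚ P where
  carrier := {v | ∃ g, v = (m + bar m) * g + (m - bar m) * til g}
  add_mem' := by
    rintro _ _ ⟨g, rfl⟩ ⟨h, rfl⟩
    exact ⟨g + h, by rw [map_add]; ring⟩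
  zero_mem' := ⟨0, by simp⟩
  smul_mem' := by
    rintro c _ ⟨g, rfl⟩
    exact ⟨C (C c) * g, by simp only [smul_eq, map_mul, til_C, sg_C]; ring⟩

theorem W_self (m : P) : m ∈ W m := by
  refine ⟨C (C (1 / 2)), ?_⟩
  have : (C (C (1 / 2)) : P) * 2 = 1 := by
    rw [← map_ofNat C 2, ← map_ofNat C 2, ← map_mul, ← map_mul]; norm_num
  rw [til_C, sg_C]
  linear_combination (-m) * this

theorem W_rr (m v : P) (h : v ∈ W m) : rr v ∈ W m := by
  obtain ⟨g, rfl⟩ := h
  exact ⟨g * X, by simp only [rr_apply, map_mul, til_X]; ring⟩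

theorem W_ss (m v : P) (h : v ∈ W m) : ss v ∈ W m := by
  obtain ⟨g, rfl⟩ := h
  refine ⟨C X * bar g, ?_⟩
  simp only [ss_apply, map_mul, map_add, map_sub, bar_bar, til_bar, til_C, sg_X, map_neg]
  ring

noncomputable def evp : P →+* ℚ[X] := mapRingHom (evalRingHom 1)
noncomputable def evm : P →+* ℚ[X] := mapRingHom (evalRingHom (-1))
@[simp] theorem evp_X : evp X = X := by simp [evp]
@[simp] theorem evm_X : evm X = X := by simp [evm]
@[simp] theorem evp_C (a : ℚ[X]) : evp (C a) = C (a.eval 1) := by simp [evp]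
@[simp] theorem evm_C (a : ℚ[X]) : evm (C a) = C (a.eval (-1)) := by simp [evm]
theorem evp_bar (v : P) : evp (bar v) = sg (evp v) := by
  ext n
  simp [evp, bar_coeff, sg_coeff]
theorem evm_bar (v : P) : evm (bar v) = sg (evm v) := by
  ext n
  simp [evm, bar_coeff, sg_coeff]

noncomputable def J : Submodule ℚ P where
  carrier := {v | evp v = X * evm v}
  add_mem' := by
    intro a b (ha : evp a = _) (hb : evp b = _)
    show evp _ = _
    rw [map_add, map_add, ha, hb, mul_add]
  zero_mem' := by simp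
  smul_mem' := by
    intro c a (ha : evp a = _)
    show evp _ = _
    simp only [smul_eq, map_mul, evp_C, evm_C, eval_C, ha]; ring

theorem J_rr (v : P) (h : v ∈ J) : rr v ∈ J := by
  have h : evp v = _ := h
  show evp _ = _
  simp only [rr_apply, map_mul, evp_X, evm_X, h]; ring

theorem J_ss (v : P) (h : v ∈ J) : ss v ∈ J := by
  have h : evp v = _ := h
  show evp _ = _
  simp only [ss_apply, map_mul, evp_C, evm_C, eval_X, evp_bar, evm_bar, h, sg_X, map_neg, map_one]
  ring

theorem W_deg (m : P) (κ : ℚ[X]) (hκ : κ ≠ 0) (h : C κ ∈ W m) : m.natDegree = 0 := by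
  obtain ⟨g, hg⟩ := h
  have hκ' : (C κ : P) ≠ 0 := by simpa using hκ
  have hm : m ≠ 0 := by rintro rfl; simp [hκ] at hg
  have hg0 : g ≠ 0 := by rintro rfl; simp [hκ] at hg
  have d1 : (bar m).natDegree ≤ m.natDegree := by
    rw [natDegree_le_iff_coeff_eq_zero]
    intro n hn
    rw [bar_coeff, coeff_eq_zero_of_natDegree_lt hn, zero_mul]
  by_contra hn
  have h1 := congrArg (coeff · (m.natDegree + g.natDegree)) hg
  simp only [coeff_add] at h1
  rw [coeff_mul_add_eq_of_natDegree_le ((natDegree_add_le _ _).trans (max_le le_rfl d1)) le_rfl,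
    coeff_mul_add_eq_of_natDegree_le ((natDegree_sub_le _ _).trans (max_le le_rfl d1))
      (show (til g).natDegree ≤ g.natDegree from natDegree_map_le), coeff_C, if_neg (by omega), coeff_add, coeff_sub, bar_coeff] at h1
  have a1 : m.coeff m.natDegree ≠ 0 := by simpa using hm
  have a2 : g.coeff g.natDegree ≠ 0 := by simpa using hg0
  have a3 := sg_ne _ a2
  rw [til_coeff] at h1
  rcases neg_one_pow_eq_or ℚ[X] m.natDegree with e | e <;> rw [e] at h1
  · exact mul_ne_zero two_ne_zero (mul_ne_zero a1 a2) (by linear_combination -h1)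
  · exact mul_ne_zero two_ne_zero (mul_ne_zero a1 a3) (by linear_combination -h1)

theorem not_cyclic (m e : P) (κ : ℚ[X]) (hκ : κ ≠ 0) (h : C κ ∈ W m) (hJ : m ∈ J) (he : e ∈ W m)
    (h1 : evm e = 1) : False := by
  have h0 := eq_C_of_natDegree_eq_zero (W_deg m κ hκ h)
  generalize m.coeff 0 = μ at h0
  subst h0
  have h2 : evp (C μ) = X * evm (C μ) := hJ
  have h3 := congrArg (coeff · 1) h2
  simp [coeff_C] at h3
  obtain ⟨g, rfl⟩ := he
  simp [← h3] at h1

end Pool.Agent.H.MP_ce47b3_al
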