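import Mathlib
import Pool.Agent.Lib.helper10.RelFree
import Pool.Agent.H.MP_ce47b3_al.Defs
import Pool.Agent.H.MP_ce47b3_al.Poly

set_option linter.unusedSectionVars false
set_option linter.dupNamespace false

namespace Pool.Agent.H.MP_ce47b3_al
open FreeNonUnitalNonAssocAlgebra Pool.Agent.Lib.helper10.VarDefs Pool.Agent.Lib.helper10.RelFree

noncomputable def v (i : ℕ) : FreeNonUnitalNonAssocAlgebra ℚ ℕ := of ℚ i

noncomputable def f1 : FreeNonUnitalNonAssocAlgebra ℚ ℕ := (v 0 * v 1) * (v 2 * v 3)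
noncomputable def f2 : FreeNonUnitalNonAssocAlgebra ℚ ℕ :=
  ((v 0 * v 1) * v 2) * v 3 + (v 2 * (v 0 * v 1)) * v 3 + ((v 0 * v 1) * v 3) * v 2 +
    v 2 * ((v 0 * v 1) * v 3)

def SS : Set (FreeNonUnitalNonAssocAlgebra ℚ ℕ) := {f1, f2}

theorem v_eq (i : ℕ) : v i = MonoidAlgebra.single (FreeMagma.of i) 1 := rfl

theorem multi : ∀ f ∈ SS, Multilinear f := by
  rintro f (rfl | rfl)
  · refine ⟨4, Submodule.subset_span ⟨(.of 0 * .of 1) * (.of 2 * .of 3), by decide, ?_⟩⟩
    simp [f1, v_eq, MonoidAlgebra.single_mul_single]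
  · refine ⟨4, add_mem (add_mem (add_mem ?_ ?_) ?_) ?_⟩
    · refine Submodule.subset_span ⟨((.of 0 * .of 1) * .of 2) * .of 3, by decide, ?_⟩
      simp [v_eq, MonoidAlgebra.single_mul_single]
    · refine Submodule.subset_span ⟨(.of 2 * (.of 0 * .of 1)) * .of 3, by decide, ?_⟩
      simp [v_eq, MonoidAlgebra.single_mul_single]
    · refine Submodule.subset_span ⟨((.of 0 * .of 1) * .of 3) * .of 2, by decide, ?_⟩
      simp [v_eq, MonoidAlgebra.single_mul_single]
    · refine Submodule.subset_span ⟨.of 2 * ((.of 0 * .of 1) * .of 3), by decide, ?_⟩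
      simp [v_eq, MonoidAlgebra.single_mul_single]

section
variable {A : Type} [NonUnitalNonAssocRing A] [Module ℚ A] [IsScalarTower ℚ A A]
  [SMulCommClass ℚ A A]

theorem sat_iff : Sat SS A ↔ (∀ a b c d : A, (a * b) * (c * d) = 0) ∧
    ∀ a b c d : A, ((a * b) * c) * d + (c * (a * b)) * d + ((a * b) * d) * c +
      c * ((a * b) * d) = 0 := by
  constructor
  · intro h
    constructor
    · intro a b c d
      simpa [f1, v] using h f1 (Or.inl rfl) (fun i => [a, b, c, d].getD i 0)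
    · intro a b c d
      simpa [f2, v] using h f2 (Or.inr rfl) (fun i => [a, b, c, d].getD i 0)
  · rintro ⟨h1, h2⟩ f (rfl | rfl) a
    · simp [f1, v, h1]
    · simp only [f2, v, map_add, map_mul, lift_of_apply, h2]

theorem sat_sub (hA : Sat SS A) (C : NonUnitalSubalgebra ℚ A) : Sat SS C := by
  rw [sat_iff] at hA ⊢
  exact ⟨fun a b c d => Subtype.ext (hA.1 a b c d), fun a b c d => Subtype.ext (hA.2 a b c d)⟩

variable (A) in
def N : Submodule ℚ A := Submodule.span ℚ {p | ∃ a b, p = a * b}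

omit [IsScalarTower ℚ A A] [SMulCommClass ℚ A A] in
theorem mul_N (a b : A) : a * b ∈ N A := Submodule.subset_span ⟨a, b, rfl⟩

theorem NN (hA : Sat SS A) {u w : A} (hu : u ∈ N A) (hw : w ∈ N A) : u * w = 0 := by
  induction hu using Submodule.span_induction with
  | mem p hp =>
    obtain ⟨a, b, rfl⟩ := hp
    induction hw using Submodule.span_induction with
    | mem p hp => obtain ⟨c, d, rfl⟩ := hp; exact (sat_iff.mp hA).1 a b c d
    | zero => simp
    | add x y _ _ hx hy => rw [mul_add, hx, hy, add_zero]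
    | smul c x _ hx => rw [mul_smul_comm, hx, smul_zero]
  | zero => simp
  | add x y _ _ hx hy => rw [add_mul, hx, hy, add_zero]
  | smul c x _ hx => rw [smul_mul_assoc, hx, smul_zero]

def r (t : A) : A →ₗ[ℚ] A := LinearMap.mulRight ℚ t
def s (t : A) : A →ₗ[ℚ] A := LinearMap.mulRight ℚ t + LinearMap.mulLeft ℚ t
theorem r_apply (t w : A) : r t w = w * t := rfl
theorem s_apply (t w : A) : s t w = w * t + t * w := rfl
theorem rN (t w : A) : r t w ∈ N A := mul_N _ _
theorem sN (t w : A) : s t w ∈ N A := add_mem (mul_N _ _) (mul_N _ _)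

theorem sr (hA : Sat SS A) (t : A) {w : A} (hw : w ∈ N A) : s t (r t w) = - r t (s t w) := by
  induction hw using Submodule.span_induction with
  | mem p hp =>
    obtain ⟨a, b, rfl⟩ := hp
    have := (sat_iff.mp hA).2 a b t t
    rw [eq_neg_iff_add_eq_zero, ← this]
    simp only [r_apply, s_apply, add_mul]
    abel
  | zero => simp
  | add x y _ _ hx hy => simp only [map_add, hx, hy, neg_add]
  | smul c x _ hx => simp only [map_smul, hx, smul_neg]

noncomputable def H (x y : A) : A :=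
  (1 / 2 : ℚ) • (x * x - (2 : ℚ) • r x (x * x) + s x (r x (x * x))) +
  (1 / 2 : ℚ) • ((2 : ℚ) • r x (s x y) - s x (s x y) - s x (r x (s x y)))
noncomputable def g (x y : A) : A := s x (y + H x y)
noncomputable def px (x y : A) : A := x + (r x (g x y) - g x y)
noncomputable def py (x y : A) : A := r x (g x y) - H x y

theorem HN (x y : A) : H x y ∈ N A :=
  add_mem (Submodule.smul_mem _ _ (add_mem (sub_mem (mul_N _ _) (Submodule.smul_mem _ _ (rN _ _)))
    (sN _ _))) (Submodule.smul_mem _ _ (sub_mem (sub_mem (Submodule.smul_mem _ _ (rN _ _))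
      (sN _ _)) (sN _ _)))
theorem pyN (x y : A) : py x y ∈ N A := sub_mem (rN _ _) (HN _ _)

variable {B : Type} [NonUnitalNonAssocRing B] [Module ℚ B] [IsScalarTower ℚ B B]
  [SMulCommClass ℚ B B]

theorem map_H (φ : A →ₙₐ[ℚ] B) (x y : A) : φ (H x y) = H (φ x) (φ y) := by
  simp only [H, r_apply, s_apply, map_add, map_sub, map_smul, map_mul]
theorem map_g (φ : A →ₙₐ[ℚ] B) (x y : A) : φ (g x y) = g (φ x) (φ y) := by
  simp only [g, s_apply, map_add, map_mul, map_H]
theorem map_px (φ : A →ₙₐ[ℚ] B) (x y : A) : φ (px x y) = px (φ x) (φ y) := by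
  simp only [px, r_apply, map_add, map_sub, map_mul, map_g]
theorem map_py (φ : A →ₙₐ[ℚ] B) (x y : A) : φ (py x y) = py (φ x) (φ y) := by
  simp only [py, r_apply, map_sub, map_mul, map_g, map_H]

theorem key (hA : Sat SS A) (x y : A) : py x y + H (px x y) (py x y) = 0 := by
  have gN : g x y ∈ N A := sN _ _
  have wN : r x (g x y) - g x y ∈ N A := sub_mem (rN _ _) gN
  have hr : ∀ w ∈ N A, r (px x y) w = r x w := fun w hw => by
    rw [r_apply, px, mul_add, NN hA hw wN, add_zero, r_apply]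
  have hs : ∀ w ∈ N A, s (px x y) w = s x w := fun w hw => by
    simp only [s_apply, px, mul_add, add_mul]
    rw [NN hA hw wN, NN hA wN hw, add_zero, add_zero]
  have hp : px x y * px x y = x * x + s x (r x (g x y) - g x y) := by
    simp only [s_apply, px, mul_add, add_mul]
    rw [NN hA wN wN]
    abel
  have hz : s x (py x y) = s x y - g x y + s x (r x (g x y)) := by
    have : g x y = s x y + s x (H x y) := map_add _ _ _
    rw [py, map_sub]
    nth_rewrite 2 [this]
    abel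
  have hH : H (px x y) (py x y) =
      (1 / 2 : ℚ) • (px x y * px x y - (2 : ℚ) • r x (px x y * px x y) +
        s x (r x (px x y * px x y))) +
      (1 / 2 : ℚ) • ((2 : ℚ) • r x (s x (py x y)) - s x (s x (py x y)) -
        s x (r x (s x (py x y)))) := by
    rw [H, hs _ (pyN x y), hr _ (mul_N _ _), hr _ (sN _ _), hs _ (rN _ _), hs _ (rN _ _),
      hs _ (sN _ _)]
  rw [hH, hp, hz, py, H]
  generalize g x y = q at gN
  have e1 := sr hA x gN
  have e2 := sr hA x (sN x q)
  have e3 := sr hA x (rN x (s x q))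
  simp only [map_add, map_sub, map_neg, e1, e2, e3]
  module

theorem idem (hA : Sat SS A) (x y : A) :
    px (px x y) (py x y) = px x y ∧ py (px x y) (py x y) = py x y := by
  have h : g (px x y) (py x y) = 0 := by rw [g, key hA, map_zero]
  constructor
  · rw [px, h]; simp
  · rw [py, h, map_zero, zero_sub, neg_eq_iff_add_eq_zero, add_comm, key hA]

theorem gen_mem {Y : Type} (i : Y → B) (hB : ∀ (A : Type) [NonUnitalNonAssocRing A] [Module ℚ A]
    [IsScalarTower ℚ A A] [SMulCommClass ℚ A A], Sat SS A →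
      ∀ a : Y → A, ∃! φ : B →ₙₐ[ℚ] A, ∀ y, φ (i y) = a y) (hA : Sat SS A)
    (C : NonUnitalSubalgebra ℚ A) (ψ : B →ₙₐ[ℚ] A) (h : ∀ y, ψ (i y) ∈ C) (b : B) : ψ b ∈ C := by
  obtain ⟨χ, hχ, -⟩ := hB C (sat_sub hA C) (fun y => ⟨_, h y⟩)
  have : (NonUnitalSubalgebraClass.subtype C).comp χ = ψ :=
    (hB A hA (fun y => ψ (i y))).unique (fun y => by simp [hχ]) (fun _ => rfl)
  rw [← this]
  exact (χ b).2

end

def Alg {M : Type} [AddCommGroup M] [Module ℚ M] (_μ : M →ₗ[ℚ] M →ₗ[ℚ] M) : Type := M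

section
variable {M : Type} [AddCommGroup M] [Module ℚ M] (μ : M →ₗ[ℚ] M →ₗ[ℚ] M)
instance : AddCommGroup (Alg μ) := inferInstanceAs (AddCommGroup M)
instance : Module ℚ (Alg μ) := inferInstanceAs (Module ℚ M)
instance : NonUnitalNonAssocRing (Alg μ) where
  mul a b := μ a b
  left_distrib a b c := map_add (μ a) b c
  right_distrib a b c := LinearMap.map_add₂ μ a b c
  zero_mul a := LinearMap.map_zero₂ μ a
  mul_zero a := map_zero (μ a)
instance : IsScalarTower ℚ (Alg μ) (Alg μ) := ⟨fun c a b => LinearMap.map_smul₂ μ c a b⟩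
instance : SMulCommClass ℚ (Alg μ) (Alg μ) := ⟨fun c a b => (map_smul (μ a) c b).symm⟩
end

abbrev Z : Type := Alg (0 : (ℚ × ℚ) →ₗ[ℚ] (ℚ × ℚ) →ₗ[ℚ] (ℚ × ℚ))
theorem Z_mul (a b : Z) : a * b = 0 := rfl
theorem Z_sat : Sat SS Z := sat_iff.mpr ⟨fun _ _ _ _ => rfl, fun _ _ _ _ => by simp [Z_mul]⟩

noncomputable def mu : (ℚ × P) →ₗ[ℚ] (ℚ × P) →ₗ[ℚ] (ℚ × P) :=
  LinearMap.mk₂ ℚ (fun a b => ((0 : ℚ), b.1 • rr a.2 + a.1 • (ss b.2 - rr b.2)))
    (fun a b c => by ext1 <;> simp; module) (fun a b c => by ext1 <;> simp; module)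
    (fun a b c => by ext1 <;> simp; module) (fun a b c => by ext1 <;> simp; module)

abbrev Md : Type := Alg mu
def mkd (a : ℚ) (p : P) : Md := (a, p)
theorem mkd_mul (a b : ℚ) (p q : P) :
    mkd a p * mkd b q = mkd 0 (b • rr p + a • (ss q - rr q)) := rfl
theorem mkd_add (a b : ℚ) (p q : P) : mkd a p + mkd b q = mkd (a + b) (p + q) := rfl
theorem mkd_sub (a b : ℚ) (p q : P) : mkd a p - mkd b q = mkd (a - b) (p - q) := rfl
theorem mkd_smul (c a : ℚ) (p : P) : c • mkd a p = mkd (c * a) (c • p) := rfl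
theorem mkd_ex (a : Md) : ∃ c p, a = mkd c p := ⟨a.1, a.2, rfl⟩

theorem Md_sat : Sat SS Md := by
  refine sat_iff.mpr ⟨fun a b c d => ?_, fun a b c d => ?_⟩
  all_goals
    obtain ⟨a, p, rfl⟩ := mkd_ex a
    obtain ⟨b, q, rfl⟩ := mkd_ex b
    obtain ⟨c, p', rfl⟩ := mkd_ex c
    obtain ⟨d, q', rfl⟩ := mkd_ex d
    rw [mkd_mul a b]
    generalize b • rr p + a • (ss q - rr q) = w
    simp only [mkd_mul, mkd_add]
  · simp; rfl
  · have := eq_neg_of_add_eq_zero_left (anti w)
    simp only [map_sub, map_smul, this, zero_smul, add_zero, zero_add]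
    show mkd 0 _ = mkd 0 0
    congr 1
    module

def sub (K : Submodule ℚ P) (h1 : ∀ p ∈ K, rr p ∈ K) (h2 : ∀ p ∈ K, ss p ∈ K) :
    NonUnitalSubalgebra ℚ Md where
  carrier := {a | a.2 ∈ K}
  add_mem' := fun ha hb => K.add_mem ha hb
  zero_mem' := zero_mem K
  mul_mem' := fun ha hb =>
    add_mem (K.smul_mem _ (h1 _ ha)) (K.smul_mem _ (sub_mem (h2 _ hb) (h1 _ hb)))
  smul_mem' := fun c _ ha => K.smul_mem c ha

open Polynomial in
noncomputable def dd : ℚ[X] := 1 + C (1 / 2) * (X - X * X)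

open Polynomial in
theorem model : px (mkd 1 1) (mkd 0 1) = mkd 1 (1 + (C X * C dd * X - C X * C dd)) ∧
    py (mkd 1 1) (mkd 0 1) = mkd 0 (C X * C dd * X - (C dd - 1)) := by
  have hr : ∀ p, r (mkd 1 1) (mkd 0 p) = mkd 0 (p * X) := fun p => by
    simp [r_apply, mkd_mul, rr_apply]
  have hs : ∀ p, s (mkd 1 1) (mkd 0 p) = mkd 0 (C X * bar p) := fun p => by
    simp [s_apply, mkd_mul, mkd_add, ss_apply]
  have hx : mkd 1 1 * mkd 1 1 = mkd 0 (C X) := by simp [mkd_mul, ss_apply]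
  have hH : H (mkd 1 1) (mkd 0 1) = mkd 0 (C dd - 1) := by
    simp only [H, hx, hr, hs, mkd_add, mkd_sub, mkd_smul, smul_eq, map_mul, bar_C, bar_X, map_one,
      dd, map_add, map_sub]
    congr 1
    · norm_num
    · ring
  have hg : g (mkd 1 1) (mkd 0 1) = mkd 0 (C X * C dd) := by
    simp [g, hH, mkd_add, hs]
  constructor
  · simp [px, hg, hr, mkd_sub, mkd_add]
  · simp [py, hg, hr, hH, mkd_sub]

end Pool.Agent.H.MP_ce47b3_al
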